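import Pool.Agent.Q100.WN4

set_option autoImplicit false

/-!
# Scaled unitary operators without eigenvalues are strongly numerically hypercyclic
-/

open Filter Topology

universe u v

namespace Pool.Agent.Results.MP_f50dde_an.ScaledUnitary

/-- `T` is numerically hypercyclic: for some unit vector `x` and some functional `f` of norm one
with `f x = 1` the numbers `f (Tⁿ x)`, `n ≥ 0`, are dense in `ℂ`. -/
def NumericallyHypercyclic {X : Type*} [NormedAddCommGroup X] [NormedSpace ℂ X]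
    (T : X →L[ℂ] X) : Prop :=
  ∃ (x : X) (f : X →L[ℂ] ℂ), ‖x‖ = 1 ∧ ‖f‖ = 1 ∧ f x = 1 ∧
    Dense (Set.range fun n : ℕ => f ((T ^ n) x))

/-- `T` and `S` are similar. -/
def Similar {X Y : Type*} [NormedAddCommGroup X] [NormedSpace ℂ X] [NormedAddCommGroup Y]
    [NormedSpace ℂ Y] (T : X →L[ℂ] X) (S : Y →L[ℂ] Y) : Prop :=
  ∃ J : X ≃L[ℂ] Y, ∀ x, J (T x) = S (J x)

/-- **Scaled unitary operators.** Let `T` be a unitary operator of a complex Hilbert space with
infinite spectrum and without eigenvalues and let `r > 1`. Then `r T` is strongly numerically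
hypercyclic: every operator `S`, on any Banach space `Y`, that is similar to `r T` is numerically
hypercyclic. -/
theorem result (H : Type u) [NormedAddCommGroup H] [InnerProductSpace ℂ H] [CompleteSpace H]
    (T : H →L[ℂ] H) (hT : T ∈ unitary (H →L[ℂ] H)) (hinf : (spectrum ℂ T).Infinite)
    (hp : ∀ μ : ℂ, ¬ Module.End.HasEigenvalue (T : H →ₗ[ℂ] H) μ) (r : ℝ) (hr : 1 < r)
    (Y : Type v) [NormedAddCommGroup Y] [NormedSpace ℂ Y] [CompleteSpace Y] (S : Y →L[ℂ] Y)
    (hS : Similar ((r : ℂ) • T) S) : NumericallyHypercyclic S := by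
  have hnt : Nontrivial H := by
    by_contra hcon
    rw [not_nontrivial_iff_subsingleton] at hcon
    have h1 : Subsingleton (H →L[ℂ] H) := ⟨fun A B => ContinuousLinearMap.ext fun x =>
      Subsingleton.elim _ _⟩
    obtain ⟨μ, hμ⟩ := hinf.nonempty
    rw [spectrum.mem_iff] at hμ
    exact hμ (by rw [Subsingleton.elim (algebraMap ℂ (H →L[ℂ] H) μ - T) 1]; exact isUnit_one)
  have hne : ∀ (μ : ℂ) (v : H), T v = μ • v → v = 0 := by
    intro μ v hv
    by_contra hv0
    exact hp μ (Module.End.hasEigenvalue_of_hasEigenvector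
      ⟨Module.End.mem_eigenspace_iff.2 hv, hv0⟩)
  obtain ⟨J, hJ⟩ := hS
  have hr0 : (r : ℂ) ≠ 0 := by
    have : r ≠ 0 := by linarith
    exact_mod_cast this
  -- the targets
  set w : ℕ → ℂ := TopologicalSpace.denseSeq ℂ with hw
  set ω : ℕ → ℕ → ℂ := fun k n => ((r : ℂ)⁻¹) ^ n * w k with hωdef
  have hω : ∀ k, Tendsto (ω k) atTop (𝓝 0) := by
    intro k
    have h1 : Tendsto (fun n : ℕ => ((r : ℂ)⁻¹) ^ n) atTop (𝓝 0) := by
      refine tendsto_pow_atTop_nhds_zero_of_norm_lt_one ?_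
      rw [norm_inv, Complex.norm_real, Real.norm_of_nonneg (by linarith)]
      exact inv_lt_one_of_one_lt₀ hr
    have h3 := h1.mul_const (w k)
    rw [zero_mul] at h3
    exact h3
  obtain ⟨y, f, n, hy, hf, hfy, hfn⟩ := Q100.WN.main hT hne J hω
  refine ⟨J y, f, hy, hf, hfy, ?_⟩
  have hpow : ∀ (m : ℕ) (x : H), (S ^ m) (J x) = ((r : ℂ) ^ m) • J ((T ^ m) x) := by
    intro m
    induction m with
    | zero => intro x; simp
    | succ m ih =>
      intro x
      have h2 : S (J x) = J (((r : ℂ) • T) x) := (hJ x).symm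
      rw [pow_succ S m, mul_apply_eq_comp, h2, ih, smul_apply, map_smul, map_smul, smul_smul,
        pow_succ T m, mul_apply_eq_comp, pow_succ (r : ℂ) m]
  refine (TopologicalSpace.denseRange_denseSeq ℂ).mono ?_
  rintro _ ⟨k, rfl⟩
  refine ⟨n k, ?_⟩
  show f ((S ^ n k) (J y)) = w k
  rw [hpow, map_smul, hfn, smul_eq_mul]
  simp only [hωdef]
  rw [← mul_assoc, ← mul_pow, mul_inv_cancel₀ hr0, one_pow, one_mul]

end Pool.Agent.Results.MP_f50dde_an.ScaledUnitary
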